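import Pool.Agent.H82.RD.Targets

/-!
Module DC1 of the project RD (`MP_7ecdd4_nt`): the determinant in the first case.
-/

set_option autoImplicit false

open Finset

namespace Pool.Agent.H34.RD

open Pool.Agent.H82.RD

theorem pf_DC1 (hDLA : T_DLA) (hDCA : T_DCA) : T_DC1 := by
  intro R _ ϖ u A B E N y EE E₀ hB hN hE
  classical
  have h1 : ∀ (r : Cl u A B) (b : ℕ), ∃ z : R, EE r ^ b = E₀ ^ b + ϖ ^ E * z := by
    intro r b
    obtain ⟨z, hz⟩ := (hE r).trans (sub_dvd_pow_sub_pow (EE r) E₀ b)
    exact ⟨z, by rw [← hz]; ring⟩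
  choose z hz using h1
  let G : Cl u A B → (↥(Sx u A) ⊕ Cl u A B) → R := fun r c =>
    Sum.elim (fun a => ∏ i, y r i ^ a.1 i) (fun c => (∏ i, y r i ^ c.1.1 i) * z r c.2) c
  let C : (↥(Sx u A) ⊕ Cl u A B) → Cl u A B → R := fun c j =>
    Sum.elim (fun a => if a = j.1 then E₀ ^ (j.2 : ℕ) else 0)
      (fun c => if c = j then ϖ ^ E else 0) c
  let om : (↥(Sx u A) ⊕ Cl u A B) → ℕ := fun c => Sum.elim (fun _ => 0) (fun _ => E) c
  have hmat : (im A B y EE) = Matrix.of fun i j => ∑ c, G i c * C c j := by
    ext i j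
    rw [im, Matrix.of_apply, Matrix.of_apply, Fintype.sum_sum_type, hz i j.2]
    have e1 : ∑ a : ↥(Sx u A), G i (Sum.inl a) * C (Sum.inl a) j =
        (∏ l, y i l ^ j.1.1 l) * E₀ ^ (j.2 : ℕ) := by
      simp only [G, C, Sum.elim_inl, mul_ite, mul_zero]
      rw [Finset.sum_ite_eq' Finset.univ j.1]
      simp
    have e2 : ∑ c : Cl u A B, G i (Sum.inr c) * C (Sum.inr c) j =
        (∏ l, y i l ^ j.1.1 l) * z i j.2 * ϖ ^ E := by
      simp only [G, C, Sum.elim_inr, mul_ite, mul_zero]
      rw [Finset.sum_ite_eq' Finset.univ j]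
      simp
    rw [e1, e2]
    ring
  rw [hmat]
  refine hDLA R ϖ (Cl u A B) (↥(Sx u A) ⊕ Cl u A B) G C om (fun _ => 0) N ?_ ?_
  · intro c j
    rcases c with a | c
    · simp [om]
    · simp only [om, C, Sum.elim_inr, Nat.sub_zero]
      split_ifs
      · exact dvd_refl _
      · exact dvd_zero _
  · intro f hf
    have hsum : ∑ j, om (f j) =
        E * ((Finset.univ : Finset (Cl u A B)).filter (fun j => (f j).isRight)).card := by
      rw [Finset.card_filter, Finset.mul_sum]
      refine Finset.sum_congr rfl fun j _ => ?_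
      rcases f j with a | c <;> simp [om]
    have hleft : ((Finset.univ : Finset (Cl u A B)).filter (fun j => ¬ (f j).isRight)).card ≤
        (Sx u A).card := by
      have : ((Finset.univ : Finset (Cl u A B)).filter (fun j => ¬ (f j).isRight)).card ≤
          (Finset.univ.image (Sum.inl : ↥(Sx u A) → ↥(Sx u A) ⊕ Cl u A B)).card := by
        refine Finset.card_le_card_of_injOn f ?_ (fun x _ y _ h => hf h)
        intro j hj
        have hj2 := (Finset.mem_filter.1 hj).2
        rw [Finset.mem_coe, Finset.mem_image]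
        rcases hfj : f j with a | c
        · exact ⟨a, Finset.mem_univ _, rfl⟩
        · rw [hfj] at hj2
          simp at hj2
      refine this.trans (Finset.card_image_le.trans ?_)
      rw [Finset.card_univ, Fintype.card_coe]
    have htot := Finset.card_filter_add_card_filter_not (s := (Finset.univ : Finset (Cl u A B)))
      (fun j => ((f j).isRight : Prop))
    have hcard : (Finset.univ : Finset (Cl u A B)).card = (Sx u A).card * B := by
      rw [Finset.card_univ, Fintype.card_prod, Fintype.card_coe, Fintype.card_fin]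
    rw [hsum, Finset.sum_const_zero, Nat.add_zero]
    rw [hcard] at htot
    rw [← hDCA u A] at hN
    set n := (Sx u A).card with hn
    set k := ((Finset.univ : Finset (Cl u A B)).filter (fun j => (f j).isRight)).card with hk
    have h3 : n * B ≤ k + n := by
      have := hleft
      omega
    have h4 : B * n * E ≤ 2 * (E * k) := by
      have h5 : B * n ≤ 2 * k := by nlinarith
      calc B * n * E ≤ 2 * k * E := Nat.mul_le_mul_right _ h5
        _ = 2 * (E * k) := by ring
    omega

end Pool.Agent.H34.RD
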