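import Pool.Agent.H82.RD.Targets

/-!
Module HAB of the project RD (`MP_7ecdd4_nt`): exponents in a relation are small.
-/

set_option autoImplicit false

open Finset

namespace Pool.Agent.H34.RD

open Pool.Agent.H82.RD

theorem factorial_le_prod_finset (s : Finset ℕ) (hs : ∀ x ∈ s, 1 ≤ x) :
    s.card.factorial ≤ ∏ x ∈ s, x := by
  induction s using Finset.induction_on_max with
  | empty => simp
  | insert a s ha ih =>
    have hna : a ∉ s := fun h => lt_irrefl _ (ha a h)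
    rw [Finset.card_insert_of_notMem hna, Finset.prod_insert hna, Nat.factorial_succ]
    have h1 : s.card ≤ (Finset.Ico 1 a).card := by
      refine Finset.card_le_card fun x hx => ?_
      rw [Finset.mem_Ico]
      exact ⟨hs x (Finset.mem_insert_of_mem hx), ha x hx⟩
    rw [Nat.card_Ico] at h1
    have h2 : 1 ≤ a := hs a (Finset.mem_insert_self _ _)
    exact Nat.mul_le_mul (by omega) (ih fun x hx => hs x (Finset.mem_insert_of_mem hx))

theorem factorial_le_prod_fin {n : ℕ} (l : Fin n → ℕ) (hl : Function.Injective l)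
    (h1 : ∀ i, 1 ≤ l i) : n.factorial ≤ ∏ i, l i := by
  have h := factorial_le_prod_finset (Finset.univ.image l) (by
    intro x hx
    obtain ⟨i, _, rfl⟩ := Finset.mem_image.1 hx
    exact h1 i)
  rw [Finset.card_image_of_injective _ hl, Finset.card_univ, Fintype.card_fin,
    Finset.prod_image (fun x _ y _ h => hl h)] at h
  exact h

theorem qh_pos {q : ℕ} (hq : 0 < q) : 0 < qh q := by
  unfold qh
  split_ifs <;> omega

theorem qh_le {q X : ℕ} (hX : 2 ≤ X) (hq : q ≤ X) : qh q ≤ 4 * X := by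
  unfold qh
  split_ifs <;> omega

theorem sum_Kap (q T : ℕ) (hq : 0 < q) {n : ℕ} (l : Fin n → ℕ) :
    ∑ c ∈ Finset.range (qh q), (Kap q T c l).card = (T + 1) ^ n := by
  have h := Finset.card_eq_sum_card_fiberwise
    (s := Fintype.piFinset fun _ : Fin n => Finset.range (T + 1))
    (t := Finset.range (qh q)) (f := fun k => (∏ i, l i ^ k i) % qh q)
    (fun k _ => Finset.mem_coe.2 (Finset.mem_range.2 (Nat.mod_lt _ (qh_pos hq))))
  rw [Fintype.card_piFinset_const, Finset.card_range] at h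
  exact h.symm

theorem MHyp_mono {q : ℕ} [Fact q.Prime] {u : ℕ} {ι : Type} {S : Finset ι}
    {W : ι → Fin u → ℤ_[q]} {π den : ι → ℕ} {num : ι → Fin u → ℤ} {ζ : Fin u → ℤ_[q]}
    {κ e g D H H' : ℕ} (hH : H ≤ H') (h : MHyp q u S W π den num ζ κ e g D H) :
    MHyp q u S W π den num ζ κ e g D H' :=
  ⟨fun s hs => ⟨(h.1 s hs).1, (h.1 s hs).2.trans hH⟩, h.2⟩

theorem pf_HAB (hMTH : T_MTH) (hHMH : T_HMH) (hHNU : T_HNU) : T_HAB := by
  obtain ⟨X₀, hX₀, hnu⟩ := hHNU
  refine ⟨X₀, hX₀, ?_⟩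
  intro X q e r Bd l α γ hX hq hqX hl hlp hprod hαγ hcong hBd
  by_contra hcon
  have hBX : X ^ 20 ≤ Bd := not_lt.1 hcon
  have : Fact q.Prime := ⟨hq⟩
  have hfac : (r + 1).factorial ≤ X :=
    (factorial_le_prod_fin l hl fun i => (hlp i).1.one_lt.le).trans hprod
  obtain ⟨T, hT, hT2⟩ := hnu X q r e Bd hX hq.two_le hqX hfac hBX hBd
  have hcard : ∀ c, (Kap q T c l).card * (4 * X) < (T + 1) ^ (r + 1) := by
    intro c
    obtain ⟨μ, W, den, num, ζ, hμ, hM⟩ :=
      hHMH q r e T c Bd l α γ hl hlp hT hαγ hcong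
    obtain ⟨A, B, hA, hB, hAB, hXT, hNC, hfin⟩ := hT2 μ hμ
    have hH : (∏ i, l i) ^ T ≤ X ^ T := Nat.pow_le_pow_left hprod T
    have hle := hMTH q r (Fin (r + 1) → ℕ) (Kap q T c l) W (fun k => ∏ i, l i ^ k i) den num ζ
      1 (e - 3 - μ) (1 + qh q) (2 * Bd * T) (X ^ T) A B (MHyp_mono hH hM) hA hB hAB hXT hNC
    exact (Nat.mul_le_mul_right _ hle).trans_lt hfin
  have hsum := sum_Kap q T hq.pos l
  have hX2 : 2 ≤ X := hX₀.trans hX
  have hqh := qh_le hX2 hqX
  have hqp := qh_pos hq.pos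
  have h1 : (∑ c ∈ Finset.range (qh q), (Kap q T c l).card) * (4 * X) <
      qh q * (T + 1) ^ (r + 1) := by
    rw [Finset.sum_mul]
    calc ∑ c ∈ Finset.range (qh q), (Kap q T c l).card * (4 * X)
        < ∑ c ∈ Finset.range (qh q), (T + 1) ^ (r + 1) :=
          Finset.sum_lt_sum_of_nonempty (Finset.nonempty_range_iff.2 hqp.ne')
            (fun c _ => hcard c)
      _ = qh q * (T + 1) ^ (r + 1) := by
          rw [Finset.sum_const, Finset.card_range, smul_eq_mul]
  rw [hsum] at h1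
  have h2 : qh q * (T + 1) ^ (r + 1) ≤ 4 * X * (T + 1) ^ (r + 1) := Nat.mul_le_mul_right _ hqh
  have h3 : (T + 1) ^ (r + 1) * (4 * X) = 4 * X * (T + 1) ^ (r + 1) := by ring
  omega

end Pool.Agent.H34.RD
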