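import Pool.Agent.H82.RD.Targets4
import Pool.Agent.H74.RB.CNTA

/-! `LGT4`: the triples for which the radical divided by a set of primes of small weight is a
multiple of `s` and at most `s Y`. -/

set_option autoImplicit false

namespace Pool.Agent.H34.RD

open Pool.Agent.H38.RB Pool.Agent.H38.PS Pool.Agent.H82.RD

theorem lgt4_sqf {S : Finset ℕ} (hS : ∀ q ∈ S, q.Prime) : Squarefree (pd S) := by
  induction S using Finset.induction_on with
  | empty => simp [pd]
  | insert p S hp ih =>
    have h1 : pd (insert p S) = p * pd S := Finset.prod_insert hp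
    rw [h1, Nat.squarefree_mul_iff]
    refine ⟨?_, (hS p (Finset.mem_insert_self p S)).prime.squarefree,
      ih fun q hq => hS q (Finset.mem_insert_of_mem hq)⟩
    refine Nat.Coprime.prod_right fun q hq => ?_
    rw [Nat.coprime_primes (hS p (Finset.mem_insert_self p S)) (hS q (Finset.mem_insert_of_mem hq))]
    rintro rfl
    exact hp hq

theorem pf_LGT4 (hQR : T_QR) (hCOME : T_COME) (hPOW4 : T_POW4) : T_LGT4 := by
  intro δ ε hδ hε
  obtain ⟨A, hA, hQ⟩ := hQR (1 - δ) (by linarith)
  obtain ⟨C, hC, hcom⟩ := hCOME A ε hA hε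
  obtain ⟨C', hC', hpow⟩ := hPOW4 A ε hA hε
  have hA0 : 0 < A := by linarith
  refine ⟨A * C' * C, by positivity, fun s Y hs hY => ?_⟩
  have hY0 : 0 < Y := by linarith
  have hsub : {x | ∃ S : Finset ℕ, (∀ p ∈ S, p.Prime) ∧ s.primeFactors ⊆ S ∧
      (pd (S \ s.primeFactors) : ℝ) ≤ Y ∧ x ∈ Sol (1 - δ) S} ⊆
      ⋃ t ∈ sq Y, Sol (1 - δ) (s.primeFactors ∪ t.primeFactors) := by
    rintro x ⟨S, hS, hsS, hSY, hx⟩
    have hS' : ∀ p ∈ S \ s.primeFactors, p.Prime := fun p hp => hS p (Finset.mem_sdiff.1 hp).1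
    refine Set.mem_iUnion₂.2 ⟨pd (S \ s.primeFactors), ?_, ?_⟩
    · unfold Pool.Agent.H38.RB.sq
      rw [Finset.mem_filter, Finset.mem_Icc]
      exact ⟨⟨Finset.prod_pos fun q hq => (hS' q hq).pos, Nat.le_floor hSY⟩, lgt4_sqf hS'⟩
    · have h1 : (pd (S \ s.primeFactors)).primeFactors = S \ s.primeFactors :=
        Nat.primeFactors_prod hS'
      rw [h1, Finset.union_sdiff_of_subset hsS]
      exact hx
  obtain ⟨h1, h2⟩ := cnta_union (sq Y)
    (fun t => Sol (1 - δ) (s.primeFactors ∪ t.primeFactors))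
    (fun t => A ^ (s.primeFactors.card + t.primeFactors.card + 1))
    fun t => by
      obtain ⟨h3, h4⟩ := hQ (s.primeFactors ∪ t.primeFactors) fun p hp => by
        rcases Finset.mem_union.1 hp with h5 | h5
        · exact Nat.prime_of_mem_primeFactors h5
        · exact Nat.prime_of_mem_primeFactors h5
      refine ⟨h3, h4.trans (pow_le_pow_right₀ hA ?_)⟩
      have := Finset.card_union_le s.primeFactors t.primeFactors
      omega
  refine ⟨h1.subset hsub, ?_⟩
  calc _ ≤ ((⋃ t ∈ sq Y, Sol (1 - δ) (s.primeFactors ∪ t.primeFactors)).ncard : ℝ) := by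
        exact_mod_cast Set.ncard_le_ncard hsub h1
    _ ≤ ∑ t ∈ sq Y, A ^ (s.primeFactors.card + t.primeFactors.card + 1) := h2
    _ = A * A ^ s.primeFactors.card * ∑ t ∈ sq Y, A ^ t.primeFactors.card := by
        rw [Finset.mul_sum]
        refine Finset.sum_congr rfl fun t _ => ?_
        rw [pow_succ, pow_add]
        ring
    _ ≤ A * (C' * (s : ℝ) ^ ε) * (C * Y ^ (1 + ε)) := by
        have h3 := hcom Y hY0
        have h4 := hpow s hs
        have h5 : 0 ≤ ∑ t ∈ sq Y, A ^ t.primeFactors.card :=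
          Finset.sum_nonneg fun t _ => by positivity
        exact mul_le_mul (mul_le_mul_of_nonneg_left h4 hA0.le) h3 h5 (by positivity)
    _ = _ := by ring

end Pool.Agent.H34.RD
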